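import Mathlib
import Pool.Agent.Helper539.DimDefs
import Pool.Agent.Helper539.DimRep

set_option autoImplicit false

namespace Pool.Agent.Results.MP_02e4ca_lc.UpToOrder

open Pool.Agent.Helper539.Dim

/-- Question 1, both readings. Up to the order of the tuple, every computably bounded class is
represented by the solutions of a `4`-dimensionality problem, in a degree-preserving way; the
representation is exact as soon as no Turing degree has a finite nonzero number of members in the
class. Without the last proviso an exact representation by ordered tuples can fail. -/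
theorem result :
    (∀ P : Set (ℕ → ℕ), IsCBClass P →
      ∃ (A : Set ℕ) (R : ℕ → ℕ → Prop), IsComputablePoset A R ∧
        RepresentsUpToOrder P A R 4 ∧
        ((∀ f ∈ P, {h ∈ P | TuringEquivalent ((h : ℕ → ℕ) : ℕ →. ℕ) (f : ℕ →. ℕ)}.Infinite) →
          Represents P (solutions A R 4))) ∧
    (∃ P : Set (ℕ → ℕ), IsCBClass P ∧
      ∀ (A : Set ℕ) (R : ℕ → ℕ → Prop) (n : ℕ), IsComputablePoset A R → 1 ≤ n →
        ¬ Represents P (solutions A R n)) := by
  refine ⟨fun P hP => ?_, three_element⟩
  obtain ⟨A, R, hAR, hF⟩ := main_rep P hP
  exact ⟨A, R, hAR, hF, fun hinf => exact_rep hinf hF⟩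

end Pool.Agent.Results.MP_02e4ca_lc.UpToOrder
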